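import Mathlib

/-!
Decomposition of `r ^ (-s)` by mixtures of exponentials.
-/

set_option autoImplicit false
open MeasureTheory Set Filter Topology
open scoped ENNReal NNReal

namespace Helper23.Riesz

/-- Laplace transform of a power. -/
lemma lap_pow {s r : ℝ} (hs : 0 < s) (hr : 0 < r) :
    IntegrableOn (fun v : ℝ => v ^ (s - 1) * Real.exp (-v * r)) (Ioi 0) ∧
    ∫ v in Ioi (0:ℝ), v ^ (s - 1) * Real.exp (-v * r) = r ^ (-s) * Real.Gamma s := by
  have h := Real.integral_rpow_mul_exp_neg_mul_Ioi hs hr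
  have e : (fun v : ℝ => v ^ (s - 1) * Real.exp (-v * r)) =
      fun t => t ^ (s-1) * Real.exp (-(r*t)) := by
    ext v; rw [neg_mul, mul_comm v r]
  have hG := Real.Gamma_pos_of_pos hs
  have hpos : 0 < (1/r)^s * Real.Gamma s := by positivity
  rw [e]
  constructor
  · by_contra hn
    rw [integral_undef hn] at h
    exact absurd h hpos.ne
  · rw [h, one_div, Real.inv_rpow hr.le, Real.rpow_neg hr.le]

/-- Tail of the Laplace transform of a power, rescaled. -/
lemma lap_tail {s r a : ℝ} (hr : 0 < r) (ha : 0 ≤ a) :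
    ∫ v in Ioi a, v ^ (s - 1) * Real.exp (-v * r) =
      r ^ (-s) * ∫ t in Ioi (a * r), t ^ (s - 1) * Real.exp (-t) := by
  have h := integral_comp_mul_right_Ioi (fun t : ℝ => t ^ (s - 1) * Real.exp (-t)) a hr
  have h2 : ∫ v in Ioi a, (v * r) ^ (s - 1) * Real.exp (-(v * r)) =
      r ^ (s - 1) * ∫ v in Ioi a, v ^ (s - 1) * Real.exp (-v * r) := by
    rw [← integral_const_mul]
    refine setIntegral_congr_fun measurableSet_Ioi fun v hv => ?_
    have hv0 : 0 ≤ v := ha.trans (mem_Ioi.1 hv).le
    change (v * r) ^ (s - 1) * Real.exp (-(v * r)) = _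
    rw [Real.mul_rpow hv0 hr.le, neg_mul]; ring
  rw [h2, smul_eq_mul] at h
  have h3 : r ^ (s - 1) ≠ 0 := (Real.rpow_pos_of_pos hr _).ne'
  have h4 : r ^ (-s) * r ^ (s - 1) = r⁻¹ := by
    rw [← Real.rpow_add hr, show -s + (s - 1) = -1 by ring, Real.rpow_neg_one]
  apply mul_left_cancel₀ h3
  rw [h, ← mul_assoc, mul_comm (r ^ (s-1)), h4]

/-- Tonelli identity. -/
lemma tonelli {s x : ℝ} (hs1 : s < 1) (hx : 0 ≤ x) :
    ∫⁻ y in Ioi (0:ℝ), ENNReal.ofReal (y ^ (-s) / (1 + y) * Real.exp (-x * (1 + y))) =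
      ENNReal.ofReal (Real.Gamma (1 - s)) *
        ∫⁻ t in Ioi x, ENNReal.ofReal (t ^ (s - 1) * Real.exp (-t)) := by
  have hs' : 0 < 1 - s := by linarith
  have step1 : ∫⁻ y in Ioi (0:ℝ), ENNReal.ofReal (y ^ (-s) / (1 + y) * Real.exp (-x * (1 + y))) =
      ∫⁻ y in Ioi (0:ℝ), ∫⁻ t in Ioi x, ENNReal.ofReal (y ^ (-s) * Real.exp (-t * (1 + y))) := by
    refine setLIntegral_congr_fun measurableSet_Ioi fun y hy => ?_
    have hy0 : 0 < y := hy
    have hneg : -(1 + y) < 0 := by linarith
    have h1 := integral_exp_mul_Ioi hneg x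
    have h2 := integrableOn_exp_mul_Ioi hneg x
    have e : (fun t : ℝ => y ^ (-s) * Real.exp (-t * (1 + y))) =
        fun t => y ^ (-s) * Real.exp (-(1 + y) * t) := by
      ext t; congr 2; ring
    change ENNReal.ofReal (y ^ (-s) / (1 + y) * Real.exp (-x * (1 + y))) =
      ∫⁻ t in Ioi x, ENNReal.ofReal (y ^ (-s) * Real.exp (-t * (1 + y)))
    rw [← ofReal_integral_eq_lintegral_ofReal]
    · congr 1
      rw [e, integral_const_mul, h1]
      rw [show -(1 + y) * x = -x * (1 + y) by ring]
      field_simp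
    · rw [e]; exact h2.const_mul _
    · exact Eventually.of_forall fun t => by positivity
  rw [step1, lintegral_lintegral_swap]
  · rw [← lintegral_const_mul']
    · refine setLIntegral_congr_fun measurableSet_Ioi fun t ht => ?_
      have ht0 : 0 < t := lt_of_le_of_lt hx ht
      obtain ⟨h1, h2⟩ := lap_pow hs' ht0
      rw [show (1 - s - 1 : ℝ) = -s by ring] at h1 h2
      have e : (fun y : ℝ => y ^ (-s) * Real.exp (-t * (1 + y))) =
          fun y => Real.exp (-t) * (y ^ (-s) * Real.exp (-y * t)) := by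
        ext y
        rw [show -t * (1 + y) = -t + -y * t by ring, Real.exp_add]; ring
      change ∫⁻ y in Ioi (0:ℝ), ENNReal.ofReal (y ^ (-s) * Real.exp (-t * (1 + y))) = _
      rw [← ofReal_integral_eq_lintegral_ofReal]
      · rw [← ENNReal.ofReal_mul (Real.Gamma_pos_of_pos hs').le]
        congr 1
        rw [e, integral_const_mul, h2, show -(1 - s) = s - 1 by ring]; ring
      · rw [e]; exact h1.const_mul _
      · refine (ae_restrict_iff' measurableSet_Ioi).2 (Eventually.of_forall fun y hy => ?_)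
        have : 0 < y := hy
        change (0:ℝ) ≤ y ^ (-s) * Real.exp (-t * (1 + y))
        positivity
    · exact ENNReal.ofReal_ne_top
  · apply Measurable.aemeasurable
    fun_prop

/-- The density of the mixing measure for `s < 1`. -/
noncomputable def gdens (s : ℝ) (y : ℝ) : ℝ :=
  1 / (Real.Gamma s * Real.Gamma (1 - s)) * (y ^ (-s) / (1 + y))

lemma measurable_gdens (s : ℝ) : Measurable (gdens s) := by
  unfold gdens; fun_prop

/-- The mixing measure for `s < 1`. -/
noncomputable def rhoM (s a : ℝ) : Measure ℝ :=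
  ((volume.restrict (Ioi (0:ℝ))).withDensity (fun y => ENNReal.ofReal (gdens s y))).map
    (fun y => a * (1 + y))

lemma lint_gamma {s : ℝ} (hs : 0 < s) :
    ∫⁻ t in Ioi (0:ℝ), ENNReal.ofReal (t ^ (s - 1) * Real.exp (-t)) =
      ENNReal.ofReal (Real.Gamma s) := by
  obtain ⟨h1, h2⟩ := lap_pow hs one_pos
  simp only [mul_one, Real.one_rpow, one_mul] at h1 h2
  rw [← h2, ofReal_integral_eq_lintegral_ofReal h1]
  refine (ae_restrict_iff' measurableSet_Ioi).2 (Eventually.of_forall fun y hy => ?_)
  have : 0 < y := hy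
  change (0:ℝ) ≤ y ^ (s - 1) * Real.exp (-y)
  positivity

lemma lint_rho {s a r : ℝ} (hs : 0 < s) (hs1 : s < 1) (ha : 0 < a) (hr : 0 ≤ r) :
    ∫⁻ b, ENNReal.ofReal (Real.exp (-b * r)) ∂(rhoM s a) =
      ENNReal.ofReal (1 / Real.Gamma s) *
        ∫⁻ t in Ioi (a * r), ENNReal.ofReal (t ^ (s - 1) * Real.exp (-t)) := by
  have hs' : 0 < 1 - s := by linarith
  have hG := Real.Gamma_pos_of_pos hs
  have hG' := Real.Gamma_pos_of_pos hs'
  unfold rhoM
  rw [lintegral_map (by fun_prop) (by fun_prop),
    lintegral_withDensity_eq_lintegral_mul _ (measurable_gdens s).ennreal_ofReal (by fun_prop)]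
  have e : ∀ y ∈ Ioi (0:ℝ), ((fun y => ENNReal.ofReal (gdens s y)) *
      fun y => ENNReal.ofReal (Real.exp (-(a * (1 + y)) * r))) y =
      ENNReal.ofReal (1 / (Real.Gamma s * Real.Gamma (1 - s))) *
        ENNReal.ofReal (y ^ (-s) / (1 + y) * Real.exp (-(a * r) * (1 + y))) := by
    intro y hy
    have hy0 : 0 < y := hy
    rw [Pi.mul_apply, ← ENNReal.ofReal_mul (by unfold gdens; positivity),
      ← ENNReal.ofReal_mul (by positivity)]
    congr 1
    unfold gdens
    rw [show -(a * (1 + y)) * r = -(a * r) * (1 + y) by ring]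
    ring
  rw [setLIntegral_congr_fun measurableSet_Ioi e, lintegral_const_mul' _ _ ENNReal.ofReal_ne_top,
    tonelli hs1 (by positivity), ← mul_assoc, ← ENNReal.ofReal_mul (by positivity)]
  congr 2
  field_simp

lemma case_lt_one {s : ℝ} (hs : 0 < s) (hs1 : s < 1) (a : ℝ) (ha : 0 < a) :
    ∃ (ρ : Measure ℝ) (w : ℝ → ℝ), IsProbabilityMeasure ρ ∧ ρ (Iio a) = 0 ∧
      Measurable w ∧ (∀ v, 0 ≤ w v) ∧
      (∀ r : ℝ, 0 < r → IntegrableOn (fun v => w v * Real.exp (-v * r)) (Ioi 0) ∧
        r ^ (-s) * (1 - ∫ b, Real.exp (-b * r) ∂ρ) = ∫ v in Ioi 0, w v * Real.exp (-v * r)) ∧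
      (∀ U : ℝ, 2 * a ≤ U → IntegrableOn w (Ioc 0 U) ∧
        ∫ v in Ioc 0 U, w v ≤ (1 / (s * Real.Gamma s)) * a ^ s * U ^ (s - s)) ∧
      (∀ v : ℝ, 2 * a ≤ v → w v ≤ (1 / (s * Real.Gamma s)) * a ^ s * v ^ (s - 1 - s)) := by
  have hG := Real.Gamma_pos_of_pos hs
  refine ⟨rhoM s a, (Ioc 0 a).indicator (fun v => v ^ (s - 1) / Real.Gamma s), ?_, ?_, ?_, ?_, ?_,
    ?_, ?_⟩
  · -- probability measure
    constructor
    have h := lint_rho hs hs1 ha le_rfl
    simp only [mul_zero, Real.exp_zero, ENNReal.ofReal_one, lintegral_const, one_mul] at h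
    rw [h, lint_gamma hs, ← ENNReal.ofReal_mul (by positivity), one_div_mul_cancel hG.ne',
      ENNReal.ofReal_one]
  · -- support
    unfold rhoM
    rw [Measure.map_apply (by fun_prop) measurableSet_Iio]
    apply withDensity_absolutelyContinuous
    rw [Measure.restrict_apply' measurableSet_Ioi]
    convert measure_empty (μ := (volume : Measure ℝ))
    ext y
    simp only [mem_inter_iff, mem_preimage, mem_Iio, mem_Ioi, mem_empty_iff_false, iff_false,
      not_and, not_lt]
    intro h
    by_contra hy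
    push Not at hy
    nlinarith
  · exact (by fun_prop : Measurable fun v : ℝ => v ^ (s - 1) / Real.Gamma s).indicator
      measurableSet_Ioc
  · intro v
    apply indicator_nonneg
    intro v hv
    have : 0 < v := hv.1
    positivity
  · intro r hr
    obtain ⟨h1, h2⟩ := lap_pow hs hr
    have e : (fun v => (Ioc 0 a).indicator (fun v => v ^ (s - 1) / Real.Gamma s) v *
        Real.exp (-v * r)) = (Ioc 0 a).indicator
        (fun v => (1 / Real.Gamma s) * (v ^ (s - 1) * Real.exp (-v * r))) := by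
      ext v
      by_cases hv : v ∈ Ioc 0 a
      · simp only [indicator_of_mem hv]; ring
      · simp only [indicator_of_notMem hv, zero_mul]
    have hIoc : IntegrableOn (fun v : ℝ => v ^ (s - 1) * Real.exp (-v * r)) (Ioc 0 a) :=
      h1.mono_set Ioc_subset_Ioi_self
    have hIoi : IntegrableOn (fun v : ℝ => v ^ (s - 1) * Real.exp (-v * r)) (Ioi a) :=
      h1.mono_set (Ioi_subset_Ioi ha.le)
    have hsplit : ∫ v in Ioi (0:ℝ), v ^ (s - 1) * Real.exp (-v * r) =
        (∫ v in Ioc 0 a, v ^ (s - 1) * Real.exp (-v * r)) +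
          ∫ v in Ioi a, v ^ (s - 1) * Real.exp (-v * r) := by
      rw [← setIntegral_union (Ioc_disjoint_Ioi le_rfl) measurableSet_Ioi hIoc hIoi,
        Ioc_union_Ioi_eq_Ioi ha.le]
    constructor
    · rw [e]
      exact Integrable.indicator (Integrable.const_mul h1 _) measurableSet_Ioc
    · have hρ : ∫ b, Real.exp (-b * r) ∂(rhoM s a) =
          (1 / Real.Gamma s) * ∫ t in Ioi (a * r), t ^ (s - 1) * Real.exp (-t) := by
        rw [integral_eq_lintegral_of_nonneg_ae (Eventually.of_forall fun b => (Real.exp_pos _).le)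
          (by fun_prop), lint_rho hs hs1 ha hr.le, ENNReal.toReal_mul,
          ENNReal.toReal_ofReal (by positivity),
          integral_eq_lintegral_of_nonneg_ae _ (by fun_prop)]
        refine (ae_restrict_iff' measurableSet_Ioi).2 (Eventually.of_forall fun t ht => ?_)
        have : 0 < t := lt_trans (by positivity) (mem_Ioi.1 ht)
        change (0:ℝ) ≤ t ^ (s - 1) * Real.exp (-t)
        positivity
      rw [hρ, e, setIntegral_indicator measurableSet_Ioc,
        inter_eq_self_of_subset_right (Ioc_subset_Ioi_self : Ioc 0 a ⊆ Ioi 0),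
        integral_const_mul]
      have ht := lap_tail (s := s) hr ha.le
      rw [ht, h2] at hsplit
      have : ∫ v in Ioc 0 a, v ^ (s - 1) * Real.exp (-v * r) = r ^ (-s) * Real.Gamma s -
        r ^ (-s) * ∫ t in Ioi (a * r), t ^ (s - 1) * Real.exp (-t) := by linarith
      rw [this]
      field_simp
  · intro U hU
    have hint : IntegrableOn (fun v : ℝ => v ^ (s - 1) / Real.Gamma s) (Ioc 0 a) := by
      apply Integrable.div_const
      have := (intervalIntegral.intervalIntegrable_rpow' (a := 0) (b := a)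
        (by linarith : -1 < s - 1)).1
      exact this
    constructor
    · exact (hint.integrable_indicator measurableSet_Ioc).integrableOn
    · rw [setIntegral_indicator measurableSet_Ioc,
        inter_eq_self_of_subset_right (Ioc_subset_Ioc_right (by linarith))]
      rw [← intervalIntegral.integral_of_le ha.le, intervalIntegral.integral_div,
        integral_rpow (Or.inl (by linarith))]
      rw [sub_self, Real.rpow_zero, sub_add_cancel, Real.zero_rpow hs.ne', sub_zero, mul_one,
        div_div]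
      exact le_of_eq (by ring)
  · intro v hv
    rw [indicator_of_notMem (by intro h; linarith [h.2])]
    have : 0 < v := by linarith
    positivity

/-- The pointwise bound behind the case `s ≥ 1`. -/
lemma pow_diff_le {q a v : ℝ} (hq : 0 ≤ q) (ha : 0 < a) (hv : a < v) :
    v ^ q - (v - a) ^ q ≤ (q + 1) * (a * v ^ (q - 1)) := by
  have hv0 : 0 < v := ha.trans hv
  have hx1 : a / v < 1 := (div_lt_one hv0).2 hv
  have hx0 : 0 < a / v := div_pos ha hv0
  have e : (v - a) ^ q = v ^ q * (1 - a / v) ^ q := by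
    rw [← Real.mul_rpow hv0.le (by linarith)]
    congr 1; field_simp
  have key : 1 - (q + 1) * (a / v) ≤ (1 - a / v) ^ q := by
    rcases le_or_gt 1 q with h | h
    · have := one_add_mul_self_le_rpow_one_add (s := -(a / v)) (by linarith) h
      rw [← sub_eq_add_neg] at this
      nlinarith
    · have : (1 - a / v) ^ (1:ℝ) ≤ (1 - a / v) ^ q :=
        Real.rpow_le_rpow_of_exponent_ge (by linarith) (by linarith) h.le
      rw [Real.rpow_one] at this
      nlinarith
  have hvq : 0 < v ^ q := Real.rpow_pos_of_pos hv0 _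
  rw [e, Real.rpow_sub hv0, Real.rpow_one]
  have : v ^ q - v ^ q * (1 - a / v) ^ q ≤ v ^ q * ((q + 1) * (a / v)) := by nlinarith
  refine this.trans (le_of_eq ?_)
  field_simp

lemma case_one_le {s : ℝ} (hs : 1 ≤ s) (a : ℝ) (ha : 0 < a) :
    ∃ (ρ : Measure ℝ) (w : ℝ → ℝ), IsProbabilityMeasure ρ ∧ ρ (Iio a) = 0 ∧
      Measurable w ∧ (∀ v, 0 ≤ w v) ∧
      (∀ r : ℝ, 0 < r → IntegrableOn (fun v => w v * Real.exp (-v * r)) (Ioi 0) ∧
        r ^ (-s) * (1 - ∫ b, Real.exp (-b * r) ∂ρ) = ∫ v in Ioi 0, w v * Real.exp (-v * r)) ∧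
      (∀ U : ℝ, 2 * a ≤ U → IntegrableOn w (Ioc 0 U) ∧
        ∫ v in Ioc 0 U, w v ≤ (s / Real.Gamma s) * a ^ (1:ℝ) * U ^ (s - 1)) ∧
      (∀ v : ℝ, 2 * a ≤ v → w v ≤ (s / Real.Gamma s) * a ^ (1:ℝ) * v ^ (s - 1 - 1)) := by
  have hs0 : 0 < s := by linarith
  have hG := Real.Gamma_pos_of_pos hs0
  set F : ℝ → ℝ := (Ioi (0:ℝ)).indicator (fun v => v ^ (s - 1) / Real.Gamma s) with hF
  have hFm : Measurable F := (by fun_prop : Measurable fun v : ℝ =>
    v ^ (s - 1) / Real.Gamma s).indicator measurableSet_Ioi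
  have hFle : ∀ v, F (v - a) ≤ F v := by
    intro v
    rw [hF]
    by_cases h1 : v - a ∈ Ioi (0:ℝ)
    · have h1' : 0 < v - a := h1
      have h2 : v ∈ Ioi (0:ℝ) := by change 0 < v; linarith
      rw [indicator_of_mem h1, indicator_of_mem h2]
      gcongr
      linarith
    · rw [indicator_of_notMem h1]
      apply indicator_nonneg
      intro v hv
      have : 0 < v := hv
      positivity
  -- Laplace transforms
  have hLap : ∀ r : ℝ, 0 < r → Integrable (fun v => F v * Real.exp (-v * r)) ∧
      ∫ v, F v * Real.exp (-v * r) = r ^ (-s) := by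
    intro r hr
    obtain ⟨h1, h2⟩ := lap_pow hs0 hr
    have e : (fun v => F v * Real.exp (-v * r)) = (Ioi (0:ℝ)).indicator
        (fun v => (1 / Real.Gamma s) * (v ^ (s - 1) * Real.exp (-v * r))) := by
      ext v
      rw [hF]
      by_cases hv : v ∈ Ioi (0:ℝ)
      · simp only [indicator_of_mem hv]; ring
      · simp only [indicator_of_notMem hv, zero_mul]
    rw [e]
    constructor
    · exact (integrable_indicator_iff measurableSet_Ioi).2 (Integrable.const_mul h1 _)
    · rw [integral_indicator measurableSet_Ioi, integral_const_mul, h2]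
      field_simp
  have hLap2 : ∀ r : ℝ, 0 < r → Integrable (fun v => F (v - a) * Real.exp (-v * r)) ∧
      ∫ v, F (v - a) * Real.exp (-v * r) = Real.exp (-a * r) * r ^ (-s) := by
    intro r hr
    obtain ⟨h1, h2⟩ := hLap r hr
    have e : (fun v => F (v - a) * Real.exp (-v * r)) =
        fun v => Real.exp (-a * r) * (F (v - a) * Real.exp (-(v - a) * r)) := by
      ext v
      rw [show -v * r = -a * r + -(v - a) * r by ring, Real.exp_add]; ring
    rw [e]
    constructor
    · exact (h1.comp_sub_right a).const_mul _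
    · rw [integral_const_mul, integral_sub_right_eq_self (fun v => F v * Real.exp (-v * r)) a, h2]
  have hsupp : ∀ (g : ℝ → ℝ), (∫ v in Ioi (0:ℝ), (F v - F (v - a)) * g v) =
      ∫ v, (F v - F (v - a)) * g v := by
    intro g
    rw [← integral_indicator measurableSet_Ioi]
    congr 1
    ext v
    by_cases hv : v ∈ Ioi (0:ℝ)
    · rw [indicator_of_mem hv]
    · have hv' : ¬ (0 < v) := hv
      have h2 : v - a ∉ Ioi (0:ℝ) := by
        intro h; have : 0 < v - a := h; exact hv' (by linarith)
      rw [indicator_of_notMem hv, hF, indicator_of_notMem hv, indicator_of_notMem h2]; ring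
  refine ⟨Measure.dirac a, fun v => F v - F (v - a), inferInstance, ?_, ?_, ?_, ?_, ?_, ?_⟩
  · rw [Measure.dirac_apply' _ measurableSet_Iio]; simp
  · exact hFm.sub (hFm.comp (measurable_id.sub_const a))
  · intro v; linarith [hFle v]
  · intro r hr
    obtain ⟨h1, h2⟩ := hLap r hr
    obtain ⟨h3, h4⟩ := hLap2 r hr
    have e : (fun v => (F v - F (v - a)) * Real.exp (-v * r)) =
        fun v => F v * Real.exp (-v * r) - F (v - a) * Real.exp (-v * r) := by
      ext v; ring
    constructor
    · rw [e]; exact (h1.sub h3).integrableOn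
    · rw [hsupp, e, integral_sub h1 h3, h2, h4, integral_dirac]; ring
  · intro U hU
    have hU0 : 0 < U := by linarith
    have hint : ∀ U' : ℝ, IntegrableOn F (Ioc 0 U') := by
      intro U'
      have h := (intervalIntegral.intervalIntegrable_rpow' (a := 0) (b := U')
        (by linarith : -1 < s - 1)).1.div_const (Real.Gamma s)
      refine IntegrableOn.congr_fun h (fun v hv => ?_) measurableSet_Ioc
      rw [hF, indicator_of_mem (show v ∈ Ioi (0:ℝ) from hv.1)]
    have hval : ∀ U' : ℝ, 0 ≤ U' → ∫ v in Ioc 0 U', F v = U' ^ s / (s * Real.Gamma s) := by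
      intro U' hU'
      have : ∫ v in Ioc 0 U', F v = ∫ v in Ioc 0 U', v ^ (s - 1) / Real.Gamma s :=
        setIntegral_congr_fun measurableSet_Ioc fun v hv => by
          rw [hF, indicator_of_mem (show v ∈ Ioi (0:ℝ) from hv.1)]
      rw [this, ← intervalIntegral.integral_of_le hU', intervalIntegral.integral_div,
        integral_rpow (Or.inl (by linarith)), sub_add_cancel, Real.zero_rpow hs0.ne', sub_zero,
        div_div]
    have hint2 : IntegrableOn (fun v => F (v - a)) (Ioc 0 U) := by
      have h1 : IntervalIntegrable F volume (-a) (U - a) := by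
        rw [intervalIntegrable_iff_integrableOn_Ioc_of_le (by linarith)]
        refine (integrableOn_union.2 ⟨?_, hint (U - a)⟩).mono_set
          (Ioc_subset_Ioc_union_Ioc (b := 0))
        refine IntegrableOn.congr_fun (integrableOn_zero) (fun v hv => ?_) measurableSet_Ioc
        rw [hF, indicator_of_notMem (by intro h; exact absurd hv.2 (not_le.2 h))]
      have h2 := h1.comp_sub_right a
      rw [neg_add_cancel, sub_add_cancel] at h2
      exact (intervalIntegrable_iff_integrableOn_Ioc_of_le hU0.le).1 h2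
    have hval2 : ∫ v in Ioc 0 U, F (v - a) = (U - a) ^ s / (s * Real.Gamma s) := by
      rw [← hval (U - a) (by linarith), ← intervalIntegral.integral_of_le hU0.le,
        intervalIntegral.integral_comp_sub_right, zero_sub,
        ← intervalIntegral.integral_of_le (by linarith)]
      have h1 : IntervalIntegrable F volume (-a) 0 := by
        rw [intervalIntegrable_iff_integrableOn_Ioc_of_le (by linarith)]
        refine IntegrableOn.congr_fun (integrableOn_zero) (fun v hv => ?_) measurableSet_Ioc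
        rw [hF, indicator_of_notMem (by intro h; exact absurd hv.2 (not_le.2 h))]
      have h2 : IntervalIntegrable F volume 0 (U - a) := by
        rw [intervalIntegrable_iff_integrableOn_Ioc_of_le (by linarith)]
        exact hint _
      rw [← intervalIntegral.integral_add_adjacent_intervals h1 h2]
      have h3 : ∫ v in (-a)..0, F v = 0 := by
        rw [intervalIntegral.integral_of_le (by linarith)]
        refine (setIntegral_congr_fun measurableSet_Ioc (g := fun _ => (0:ℝ)) fun v hv => ?_).trans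
          (by simp)
        rw [hF, indicator_of_notMem (by intro h; exact absurd hv.2 (not_le.2 h))]
      rw [h3, zero_add]
    refine ⟨(hint U).sub hint2, ?_⟩
    rw [integral_sub (hint U) hint2, hval U hU0.le, hval2, ← sub_div]
    have h3 := one_add_mul_self_le_rpow_one_add (s := -(a / U)) (by
      have : a / U ≤ 1 := (div_le_one hU0).2 (by linarith)
      linarith) hs
    rw [← sub_eq_add_neg] at h3
    have e : (U - a) ^ s = U ^ s * (1 - a / U) ^ s := by
      rw [← Real.mul_rpow hU0.le (by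
        have : a / U ≤ 1 := (div_le_one hU0).2 (by linarith)
        linarith)]
      congr 1; field_simp
    have hUs : 0 < U ^ s := Real.rpow_pos_of_pos hU0 _
    have h4 : U ^ s - (U - a) ^ s ≤ s * (a * U ^ (s - 1)) := by
      rw [e, Real.rpow_sub hU0, Real.rpow_one]
      have : U ^ s - U ^ s * (1 - a / U) ^ s ≤ U ^ s * (s * (a / U)) := by nlinarith
      refine this.trans (le_of_eq ?_)
      field_simp
    rw [Real.rpow_one, div_le_iff₀ (by positivity)]
    have h5 : 0 < a * U ^ (s - 1) := by positivity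
    calc U ^ s - (U - a) ^ s ≤ s * (a * U ^ (s - 1)) := h4
      _ ≤ s * (s * (a * U ^ (s - 1))) := by nlinarith [mul_pos hs0 h5]
      _ = s / Real.Gamma s * a * U ^ (s - 1) * (s * Real.Gamma s) := by field_simp
  · intro v hv
    have hv0 : 0 < v := by linarith
    have hm : v ∈ Ioi (0:ℝ) := hv0
    have hm2 : v - a ∈ Ioi (0:ℝ) := by change 0 < v - a; linarith
    change F v - F (v - a) ≤ _
    rw [hF, indicator_of_mem hm, indicator_of_mem hm2, ← sub_div, div_le_iff₀ hG, Real.rpow_one]
    refine (pow_diff_le (by linarith) ha (by linarith)).trans (le_of_eq ?_)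
    field_simp
    ring

theorem exists_h {s : ℝ} (hs : 0 < s) : ∃ θ : ℝ, 0 < θ ∧ θ ≤ s ∧ ∃ C : ℝ, 0 < C ∧
    ∀ a : ℝ, 0 < a → ∃ (ρ : Measure ℝ) (w : ℝ → ℝ), IsProbabilityMeasure ρ ∧ ρ (Iio a) = 0 ∧
      Measurable w ∧ (∀ v, 0 ≤ w v) ∧
      (∀ r : ℝ, 0 < r → IntegrableOn (fun v => w v * Real.exp (-v * r)) (Ioi 0) ∧
        r ^ (-s) * (1 - ∫ b, Real.exp (-b * r) ∂ρ) = ∫ v in Ioi 0, w v * Real.exp (-v * r)) ∧
      (∀ U : ℝ, 2 * a ≤ U → IntegrableOn w (Ioc 0 U) ∧
        ∫ v in Ioc 0 U, w v ≤ C * a ^ θ * U ^ (s - θ)) ∧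
      (∀ v : ℝ, 2 * a ≤ v → w v ≤ C * a ^ θ * v ^ (s - 1 - θ)) := by
  have hG := Real.Gamma_pos_of_pos hs
  rcases lt_or_ge s 1 with h | h
  · exact ⟨s, hs, le_rfl, 1 / (s * Real.Gamma s), by positivity, case_lt_one hs h⟩
  · exact ⟨1, one_pos, h, s / Real.Gamma s, by positivity, case_one_le h⟩

end Helper23.Riesz
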