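import Pool.Agent.Helper23.Riesz.Defs4

/-!
# Riesz energy, `-2 < s < 0`: perturbation to distinct points and sequential replacement

The kernel `|x-y|^{-s}` is continuous and bounded for `s < 0`, so that the energy `Im s` is a
symmetric bilinear form on finite measures on the sphere.
-/

set_option autoImplicit false
open MeasureTheory Set Filter Topology ProbabilityTheory
open scoped ENNReal NNReal

namespace Helper23.Riesz

variable {s : ℝ} {d : ℕ}

/-! ### The kernel and its potentials -/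

namespace SeqAux

lemma kk_cont (hs0 : s < 0) : Continuous fun p : S d × S d => (dist p.1 p.2) ^ (-s) :=
  (continuous_dist).rpow_const fun _ => Or.inr (by linarith)

lemma kk_nonneg (x y : S d) : 0 ≤ (dist x y) ^ (-s) := Real.rpow_nonneg dist_nonneg _

lemma kk_le (hs0 : s < 0) (x y : S d) : (dist x y) ^ (-s) ≤ (2:ℝ) ^ (-s) :=
  Real.rpow_le_rpow dist_nonneg (dist_le_two x y) (by linarith)

lemma kk_norm (hs0 : s < 0) (x y : S d) : ‖(dist x y) ^ (-s)‖ ≤ (2:ℝ) ^ (-s) := by
  rw [Real.norm_of_nonneg (kk_nonneg x y)]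
  exact kk_le hs0 x y

lemma kk_self (hs0 : s < 0) (x : S d) : (dist x x) ^ (-s) = 0 := by
  rw [dist_self, Real.zero_rpow (by linarith)]

lemma kk_int (hs0 : s < 0) (ρ : Measure (S d × S d)) [IsFiniteMeasure ρ] :
    Integrable (fun p : S d × S d => (dist p.1 p.2) ^ (-s)) ρ :=
  Integrable.of_bound (kk_cont hs0).aestronglyMeasurable ((2:ℝ) ^ (-s))
    (Eventually.of_forall fun p => kk_norm hs0 p.1 p.2)

lemma kk_int_right (hs0 : s < 0) (ν : Measure (S d)) [IsFiniteMeasure ν] (x : S d) :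
    Integrable (fun y : S d => (dist x y) ^ (-s)) ν :=
  Integrable.of_bound ((kk_cont hs0).comp (by fun_prop : Continuous fun y : S d => (x, y))).aestronglyMeasurable
    ((2:ℝ) ^ (-s)) (Eventually.of_forall fun y => kk_norm hs0 x y)

/-- the potential of a measure -/
noncomputable def pot (s : ℝ) {d : ℕ} (ν : Measure (S d)) (x : S d) : ℝ :=
  ∫ y, (dist x y) ^ (-s) ∂ν

lemma Im_eq_pot (μ ν : Measure (S d)) : Im s μ ν = ∫ x, pot s ν x ∂μ := rfl

lemma pot_sm (hs0 : s < 0) (ν : Measure (S d)) [IsFiniteMeasure ν] :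
    StronglyMeasurable (pot s ν) :=
  (kk_cont (d := d) hs0).stronglyMeasurable.integral_prod_right

lemma pot_nonneg (ν : Measure (S d)) (x : S d) : 0 ≤ pot s ν x :=
  integral_nonneg fun y => kk_nonneg x y

lemma pot_norm (hs0 : s < 0) (ν : Measure (S d)) [IsFiniteMeasure ν] (x : S d) :
    ‖pot s ν x‖ ≤ (2:ℝ) ^ (-s) * (ν univ).toReal := by
  have := norm_integral_le_of_norm_le_const (μ := ν) (f := fun y : S d => (dist x y) ^ (-s))
    (C := (2:ℝ) ^ (-s)) (Eventually.of_forall fun y => kk_norm hs0 x y)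
  exact this

lemma pot_int (hs0 : s < 0) (μ ν : Measure (S d)) [IsFiniteMeasure μ] [IsFiniteMeasure ν] :
    Integrable (pot s ν) μ :=
  Integrable.of_bound (pot_sm hs0 ν).aestronglyMeasurable _
    (Eventually.of_forall fun x => pot_norm hs0 ν x)

lemma pot_add (hs0 : s < 0) (ν₁ ν₂ : Measure (S d)) [IsFiniteMeasure ν₁] [IsFiniteMeasure ν₂]
    (x : S d) : pot s (ν₁ + ν₂) x = pot s ν₁ x + pot s ν₂ x :=
  integral_add_measure (kk_int_right hs0 ν₁ x) (kk_int_right hs0 ν₂ x)

lemma Im_add_left (hs0 : s < 0) (μ₁ μ₂ ν : Measure (S d)) [IsFiniteMeasure μ₁]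
    [IsFiniteMeasure μ₂] [IsFiniteMeasure ν] :
    Im s (μ₁ + μ₂) ν = Im s μ₁ ν + Im s μ₂ ν :=
  integral_add_measure (pot_int hs0 μ₁ ν) (pot_int hs0 μ₂ ν)

lemma Im_add_right (hs0 : s < 0) (μ ν₁ ν₂ : Measure (S d)) [IsFiniteMeasure μ]
    [IsFiniteMeasure ν₁] [IsFiniteMeasure ν₂] :
    Im s μ (ν₁ + ν₂) = Im s μ ν₁ + Im s μ ν₂ := by
  rw [Im_eq_pot, Im_eq_pot, Im_eq_pot, ← integral_add (pot_int hs0 μ ν₁) (pot_int hs0 μ ν₂)]
  exact integral_congr_ae (Eventually.of_forall fun x => pot_add hs0 ν₁ ν₂ x)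

lemma Im_comm (hs0 : s < 0) (μ ν : Measure (S d)) [IsFiniteMeasure μ] [IsFiniteMeasure ν] :
    Im s μ ν = Im s ν μ := by
  unfold Im
  rw [integral_integral_swap (f := fun x y : S d => (dist x y) ^ (-s)) (kk_int hs0 (μ.prod ν))]
  refine integral_congr_ae (Eventually.of_forall fun y => ?_)
  refine integral_congr_ae (Eventually.of_forall fun x => ?_)
  simp only [dist_comm]

/-- the square of a sum -/
lemma Im_add_sq (hs0 : s < 0) (μ ν : Measure (S d)) [IsFiniteMeasure μ] [IsFiniteMeasure ν] :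
    Im s (μ + ν) (μ + ν) = Im s μ μ + 2 * Im s ν μ + Im s ν ν := by
  rw [Im_add_left hs0, Im_add_right hs0, Im_add_right hs0, Im_comm hs0 μ ν]
  ring

lemma Im_dirac (y : S d) (ν : Measure (S d)) : Im s (Measure.dirac y) ν = pot s ν y := by
  rw [Im_eq_pot, integral_dirac]

lemma Im_dirac_self (hs0 : s < 0) (y : S d) :
    Im s (Measure.dirac y) (Measure.dirac y) = 0 := by
  rw [Im_dirac]
  unfold pot
  rw [integral_dirac, kk_self hs0]

end SeqAux

open SeqAux

/-! ### Replacing unit pieces by points -/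

lemma replace_point_one (hs0 : s < 0) (p : Measure (S d)) [IsProbabilityMeasure p]
    (μ : Measure (S d)) [IsFiniteMeasure μ] :
    ∃ y : S d, Im s (μ + p) (μ + p) - Im s p p ≤
      Im s (μ + Measure.dirac y) (μ + Measure.dirac y) := by
  obtain ⟨y, hy⟩ := exists_integral_le (pot_int hs0 p μ)
  refine ⟨y, ?_⟩
  rw [Im_add_sq hs0, Im_add_sq hs0, Im_dirac_self hs0, Im_dirac, Im_eq_pot p μ]
  linarith

/-- module SEQ1: replace unit pieces by points -/
theorem replace_points (hs0 : s < 0) {m : ℕ} (p : Fin m → Measure (S d))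
    (hp : ∀ i, IsProbabilityMeasure (p i)) (μ : Measure (S d)) [IsFiniteMeasure μ] :
    ∃ y : Fin m → S d,
      Im s (μ + ∑ i, p i) (μ + ∑ i, p i) - ∑ i, Im s (p i) (p i) ≤
        Im s (μ + ∑ i, Measure.dirac (y i)) (μ + ∑ i, Measure.dirac (y i)) := by
  induction m generalizing μ with
  | zero => exact ⟨Fin.elim0, by simp⟩
  | succ m ih =>
    have h1 : ∀ i : Fin m, IsFiniteMeasure (p i.succ) := fun i => by
      have := hp i.succ
      infer_instance
    have h2 : IsFiniteMeasure (∑ i : Fin m, p i.succ) := by infer_instance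
    have h3 := hp 0
    obtain ⟨y0, hy0⟩ := replace_point_one hs0 (p 0) (μ + ∑ i : Fin m, p i.succ)
    obtain ⟨y, hy⟩ := ih (fun i => p i.succ) (fun i => hp i.succ) (μ + Measure.dirac y0)
    refine ⟨Fin.cons y0 y, ?_⟩
    rw [Fin.sum_univ_succ (f := p), Fin.sum_univ_succ (f := fun i => Im s (p i) (p i)),
      Fin.sum_univ_succ (f := fun i => Measure.dirac ((Fin.cons y0 y : Fin (m+1) → S d) i))]
    simp only [Fin.cons_zero, Fin.cons_succ]
    have e1 : μ + (p 0 + ∑ i : Fin m, p i.succ) = μ + ∑ i : Fin m, p i.succ + p 0 := by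
      rw [add_comm (p 0), add_assoc]
    have e2 : μ + (Measure.dirac y0 + ∑ i : Fin m, Measure.dirac (y i)) =
        μ + Measure.dirac y0 + ∑ i : Fin m, Measure.dirac (y i) := by rw [add_assoc]
    have e3 : μ + ∑ i : Fin m, p i.succ + Measure.dirac y0 =
        μ + Measure.dirac y0 + ∑ i : Fin m, p i.succ := by
      rw [add_assoc, add_assoc, add_comm (Measure.dirac y0)]
    rw [e1, e2]
    rw [e3] at hy0
    linarith

/-! ### Replacing cells by realisations -/

section cells

/-- the kernel defined by a measurable family of measures -/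
noncomputable def kerOf {O : Type} [MeasurableSpace O] (μ : O → Measure (S d))
    (hμ : ∀ A, MeasurableSet A → Measurable fun o => μ o A) : Kernel O (S d) :=
  ⟨μ, Measure.measurable_of_measurable_coe _ hμ⟩

lemma kerOf_apply {O : Type} [MeasurableSpace O] (μ : O → Measure (S d))
    (hμ : ∀ A, MeasurableSet A → Measurable fun o => μ o A) (o : O) : kerOf μ hμ o = μ o := rfl

lemma kerOf_fin {O : Type} [MeasurableSpace O] (μ : O → Measure (S d))
    (hμ : ∀ A, MeasurableSet A → Measurable fun o => μ o A) (c : ℝ)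
    (hc : ∀ o, μ o univ ≤ ENNReal.ofReal c) : IsFiniteKernel (kerOf μ hμ) :=
  ⟨⟨ENNReal.ofReal c, ENNReal.ofReal_lt_top, hc⟩⟩

lemma family_fin {O : Type} (μ : O → Measure (S d)) (c : ℝ)
    (hc : ∀ o, μ o univ ≤ ENNReal.ofReal c) (o : O) : IsFiniteMeasure (μ o) :=
  ⟨lt_of_le_of_lt (hc o) ENNReal.ofReal_lt_top⟩

lemma family_toReal {O : Type} (μ : O → Measure (S d)) (c : ℝ)
    (hc : ∀ o, μ o univ ≤ ENNReal.ofReal c) (o : O) : (μ o univ).toReal ≤ max c 0 := by
  have h1 := ENNReal.toReal_mono ENNReal.ofReal_ne_top (hc o)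
  rwa [ENNReal.toReal_ofReal'] at h1

variable {O : Type} [MeasurableSpace O]

/-- the self energy of a measurable family is strongly measurable -/
lemma Im_self_sm (hs0 : s < 0) (μ : O → Measure (S d))
    (hμ : ∀ A, MeasurableSet A → Measurable fun o => μ o A) (c : ℝ)
    (hc : ∀ o, μ o univ ≤ ENNReal.ofReal c) :
    StronglyMeasurable fun o => Im s (μ o) (μ o) := by
  have hk := kerOf_fin μ hμ c hc
  have h1 : StronglyMeasurable fun o => ∫ z, (dist z.1 z.2) ^ (-s)
      ∂((kerOf μ hμ ×ₖ kerOf μ hμ) o) :=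
    StronglyMeasurable.integral_kernel_prod_right (κ := kerOf μ hμ ×ₖ kerOf μ hμ)
      (f := fun (_ : O) (z : S d × S d) => (dist z.1 z.2) ^ (-s))
      ((kk_cont (d := d) hs0).stronglyMeasurable.comp_measurable measurable_snd)
  have h2 : (fun o => Im s (μ o) (μ o)) = fun o => ∫ z, (dist z.1 z.2) ^ (-s)
      ∂((kerOf μ hμ ×ₖ kerOf μ hμ) o) := by
    funext o
    have hf := family_fin μ c hc o
    rw [Kernel.prod_apply, kerOf_apply, integral_prod _ (kk_int hs0 _)]
    rfl
  rw [h2]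
  exact h1

lemma Im_norm_le (hs0 : s < 0) (μ ν : Measure (S d)) [IsFiniteMeasure μ] [IsFiniteMeasure ν] :
    ‖Im s μ ν‖ ≤ (2:ℝ) ^ (-s) * (ν univ).toReal * (μ univ).toReal :=
  norm_integral_le_of_norm_le_const (Eventually.of_forall fun x => pot_norm hs0 ν x)

lemma Im_self_int (hs0 : s < 0) (P : Measure O) [IsProbabilityMeasure P]
    (μ : O → Measure (S d))
    (hμ : ∀ A, MeasurableSet A → Measurable fun o => μ o A) (c : ℝ)
    (hc : ∀ o, μ o univ ≤ ENNReal.ofReal c) :
    Integrable (fun o => Im s (μ o) (μ o)) P := by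
  refine Integrable.of_bound (Im_self_sm hs0 μ hμ c hc).aestronglyMeasurable
    ((2:ℝ) ^ (-s) * max c 0 * max c 0) (Eventually.of_forall fun o => ?_)
  have hf := family_fin μ c hc o
  refine (Im_norm_le hs0 (μ o) (μ o)).trans ?_
  have h1 := family_toReal μ c hc o
  have h2 : (0:ℝ) ≤ (2:ℝ) ^ (-s) := by positivity
  gcongr

lemma Im_pot_sm (hs0 : s < 0) (μ : O → Measure (S d))
    (hμ : ∀ A, MeasurableSet A → Measurable fun o => μ o A) (c : ℝ)
    (hc : ∀ o, μ o univ ≤ ENNReal.ofReal c) (τ : Measure (S d))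
    [IsFiniteMeasure τ] : StronglyMeasurable fun o => Im s (μ o) τ := by
  have hk := kerOf_fin μ hμ c hc
  exact StronglyMeasurable.integral_kernel_prod_right (κ := kerOf μ hμ)
      (f := fun (_ : O) (x : S d) => pot s τ x)
      ((pot_sm hs0 τ).comp_measurable measurable_snd)

lemma Im_pot_int (hs0 : s < 0) (P : Measure O) [IsProbabilityMeasure P]
    (μ : O → Measure (S d))
    (hμ : ∀ A, MeasurableSet A → Measurable fun o => μ o A) (c : ℝ)
    (hc : ∀ o, μ o univ ≤ ENNReal.ofReal c) (τ : Measure (S d)) [IsFiniteMeasure τ] :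
    Integrable (fun o => Im s (μ o) τ) P := by
  refine Integrable.of_bound (Im_pot_sm hs0 μ hμ c hc τ).aestronglyMeasurable
    ((2:ℝ) ^ (-s) * (τ univ).toReal * max c 0) (Eventually.of_forall fun o => ?_)
  have hf := family_fin μ c hc o
  refine (Im_norm_le hs0 (μ o) τ).trans ?_
  have h1 := family_toReal μ c hc o
  have h2 : (0:ℝ) ≤ (2:ℝ) ^ (-s) * (τ univ).toReal := by positivity
  gcongr

/-- the expectation of the mutual energy with a fixed measure -/
lemma Im_mean (hs0 : s < 0) (P : Measure O) [IsProbabilityMeasure P]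
    (μ : O → Measure (S d)) (β : Measure (S d)) [IsFiniteMeasure β]
    (hμ : ∀ A, MeasurableSet A → Measurable fun o => μ o A) (c : ℝ)
    (hc : ∀ o, μ o univ ≤ ENNReal.ofReal c)
    (hmean : ∀ A, MeasurableSet A → β A = ∫⁻ o, μ o A ∂P) (τ : Measure (S d))
    [IsFiniteMeasure τ] : ∫ o, Im s (μ o) τ ∂P = Im s β τ := by
  have hk := kerOf_fin μ hμ c hc
  have hβ : β = (P ⊗ₘ kerOf μ hμ).snd := by
    ext A hA
    rw [Measure.snd_compProd, Measure.bind_apply hA (Kernel.aemeasurable _), hmean A hA]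
    rfl
  rw [Im_eq_pot β τ, hβ, Measure.snd, integral_map measurable_snd.aemeasurable
    (pot_sm hs0 τ).aestronglyMeasurable]
  rw [Measure.integral_compProd]
  · rfl
  · exact Integrable.of_bound ((pot_sm hs0 τ).comp_measurable measurable_snd).aestronglyMeasurable _
      (Eventually.of_forall fun x => pot_norm hs0 τ x.2)

lemma replace_cell_one (hs0 : s < 0) (P : Measure O) [IsProbabilityMeasure P]
    (μ : O → Measure (S d)) (β : Measure (S d)) [IsFiniteMeasure β]
    (hμ : ∀ A, MeasurableSet A → Measurable fun o => μ o A) (c : ℝ)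
    (hc : ∀ o, μ o univ ≤ ENNReal.ofReal c)
    (hmean : ∀ A, MeasurableSet A → β A = ∫⁻ o, μ o A ∂P)
    (F : O → ℝ) (hF : Integrable F P) (τ : Measure (S d)) [IsFiniteMeasure τ] :
    ∃ o : O, Im s (τ + β) (τ + β) - (Im s β β - ∫ o, Im s (μ o) (μ o) ∂P) - ∫ o, F o ∂P ≤
      Im s (τ + μ o) (τ + μ o) - F o := by
  have h1 := Im_pot_int hs0 P μ hμ c hc τ
  have h2 := Im_self_int hs0 P μ hμ c hc
  have h3 := Im_mean hs0 P μ β hμ c hc hmean τ
  obtain ⟨o, ho⟩ := exists_integral_le (((h1.const_mul 2).add h2).sub hF)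
  refine ⟨o, ?_⟩
  have hf := family_fin μ c hc o
  have h4 : ∫ a, (((fun x => 2 * Im s (μ x) τ) + fun o => Im s (μ o) (μ o)) - F) a ∂P =
      2 * Im s β τ + ∫ o, Im s (μ o) (μ o) ∂P - ∫ o, F o ∂P := by
    rw [integral_sub' ((h1.const_mul 2).add h2) hF, integral_add' (h1.const_mul 2) h2,
      integral_const_mul, h3]
  rw [h4] at ho
  simp only [Pi.add_apply, Pi.sub_apply] at ho
  rw [Im_add_sq hs0, Im_add_sq hs0]
  linarith

end cells

/-- module SEQ2: replace the means `β k` by realisations `μ k o`, one after the other, with a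
penalty functional `F k` -/
theorem replace_cells (hs0 : s < 0) {n : ℕ} {O : Type} [MeasurableSpace O] (P : Measure O)
    [IsProbabilityMeasure P] (μ : Fin n → O → Measure (S d)) (β : Fin n → Measure (S d))
    (hβ : ∀ k, IsFiniteMeasure (β k)) (c : ℝ) (hc : ∀ k o, μ k o univ ≤ ENNReal.ofReal c)
    (hμ : ∀ k, ∀ A, MeasurableSet A → Measurable fun o => μ k o A)
    (hmean : ∀ k, ∀ A, MeasurableSet A → β k A = ∫⁻ o, μ k o A ∂P)
    (F : O → ℝ) (hF : Integrable F P) (τ : Measure (S d)) [IsFiniteMeasure τ] :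
    ∃ o : Fin n → O,
      Im s (τ + ∑ k, β k) (τ + ∑ k, β k) - ∑ k, (Im s (β k) (β k) -
        ∫ o, Im s (μ k o) (μ k o) ∂P) - n * ∫ o, F o ∂P ≤
      Im s (τ + ∑ k, μ k (o k)) (τ + ∑ k, μ k (o k)) - ∑ k, F (o k) := by
  induction n generalizing τ with
  | zero => exact ⟨Fin.elim0, by simp⟩
  | succ n ih =>
    have h1 : ∀ i : Fin n, IsFiniteMeasure (β i.succ) := fun i => hβ i.succ
    have h2 : IsFiniteMeasure (∑ i : Fin n, β i.succ) := by infer_instance
    have h3 := hβ 0
    obtain ⟨o0, ho0⟩ := replace_cell_one hs0 P (μ 0) (β 0) (hμ 0) c (hc 0) (hmean 0) F hF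
      (τ + ∑ i : Fin n, β i.succ)
    have h4 := family_fin (μ 0) c (hc 0) o0
    obtain ⟨o, ho⟩ := ih (fun i => μ i.succ) (fun i => β i.succ) (fun i => hβ i.succ)
      (fun i => hc i.succ) (fun i => hμ i.succ) (fun i => hmean i.succ) (τ + μ 0 o0)
    refine ⟨Fin.cons o0 o, ?_⟩
    rw [Fin.sum_univ_succ (f := β), Fin.sum_univ_succ (f := fun k => (Im s (β k) (β k) -
        ∫ o, Im s (μ k o) (μ k o) ∂P)),
      Fin.sum_univ_succ (f := fun i => μ i ((Fin.cons o0 o : Fin (n+1) → O) i)),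
      Fin.sum_univ_succ (f := fun i => F ((Fin.cons o0 o : Fin (n+1) → O) i))]
    simp only [Fin.cons_zero, Fin.cons_succ]
    have e1 : τ + (β 0 + ∑ i : Fin n, β i.succ) = τ + ∑ i : Fin n, β i.succ + β 0 := by
      rw [add_comm (β 0), add_assoc]
    have e2 : τ + (μ 0 o0 + ∑ i : Fin n, μ i.succ (o i)) =
        τ + μ 0 o0 + ∑ i : Fin n, μ i.succ (o i) := by rw [add_assoc]
    have e3 : τ + ∑ i : Fin n, β i.succ + μ 0 o0 =
        τ + μ 0 o0 + ∑ i : Fin n, β i.succ := by
      rw [add_assoc, add_assoc, add_comm (μ 0 o0)]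
    rw [e1, e2]
    rw [e3] at ho0
    push_cast
    linarith

/-! ### Coinciding points do not matter -/

namespace SeqAux

/-- the sphere has no isolated points -/
lemma sphere_neBot (hd : 1 ≤ d) (x : S d) : (𝓝[≠] x).NeBot := by
  have hr : 1 < Module.rank ℝ (E d) := by
    rw [rank_eq_card_basis (EuclideanSpace.basisFun (Fin (d+1)) ℝ).toBasis]
    simp only [Fintype.card_fin]
    exact_mod_cast (by omega : 1 < d + 1)
  have h1 : IsConnected (Metric.sphere (0 : E d) 1) := isConnected_sphere hr 0 (by norm_num)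
  have : ConnectedSpace (S d) := Subtype.connectedSpace h1
  have : Nontrivial (S d) := by
    refine ⟨x, -x, fun h => ?_⟩
    exact ne_neg_of_mem_unit_sphere ℝ x h
  infer_instance

lemma dense_ne (hd : 1 ≤ d) {N : ℕ} (i j : Fin N) (hij : i ≠ j) :
    Dense {y : Fin N → S d | y i ≠ y j} := by
  intro y
  by_cases h : y i = y j
  · have hb := sphere_neBot hd (y i)
    have h1 : Tendsto (fun z : S d => Function.update y i z) (𝓝[≠] (y i)) (𝓝 y) := by
      have h2 : Continuous fun z : S d => Function.update y i z :=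
        continuous_const.update i continuous_id
      have h3 := (h2.tendsto (y i)).mono_left (nhdsWithin_le_nhds (s := {y i}ᶜ))
      rwa [Function.update_eq_self] at h3
    refine mem_closure_of_tendsto h1 ?_
    filter_upwards [self_mem_nhdsWithin] with z hz
    rw [Function.update_self, Function.update_of_ne hij.symm, ← h]
    exact hz
  · exact subset_closure h

lemma dense_injective (hd : 1 ≤ d) (N : ℕ) :
    Dense {y : Fin N → S d | Function.Injective y} := by
  have h1 : {y : Fin N → S d | Function.Injective y} =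
      ⋂ p : {p : Fin N × Fin N // p.1 ≠ p.2}, {y : Fin N → S d | y p.1.1 ≠ y p.1.2} := by
    ext y
    simp only [Set.mem_ofPred_eq, Set.mem_iInter, Subtype.forall, Prod.forall]
    constructor
    · intro h i j hij hy
      exact hij (h hy)
    · intro h i j hy
      by_contra hij
      exact h i j hij hy
  rw [h1]
  refine dense_iInter_of_isOpen (fun p => ?_) fun p => dense_ne hd _ _ p.2
  exact isOpen_ne_fun (continuous_apply _) (continuous_apply _)

lemma en_le_bound (hs0 : s < 0) (Y : Finset (S d)) :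
    en s Y ≤ Y.card * (Y.card * (2:ℝ) ^ (-s)) := by
  rw [en_eq hs0.ne]
  calc ∑ x ∈ Y, ∑ y ∈ Y, K s x y ≤ ∑ x ∈ Y, ∑ y ∈ Y, (2:ℝ) ^ (-s) :=
        Finset.sum_le_sum fun x _ => Finset.sum_le_sum fun y _ => kk_le hs0 x y
    _ = Y.card * (Y.card * (2:ℝ) ^ (-s)) := by simp

lemma Emax_bdd (hs0 : s < 0) (N : ℕ) :
    BddAbove {e : ℝ | ∃ Y : Finset (S d), Y.card = N ∧ e = en s Y} := by
  refine ⟨N * (N * (2:ℝ) ^ (-s)), ?_⟩
  rintro e ⟨Y, hY, rfl⟩
  rw [← hY]
  exact en_le_bound hs0 Y

end SeqAux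

/-- module PERTURB: coinciding points do not matter (the kernel is continuous) -/
theorem tuple_le_Emax (hd : 1 ≤ d) (hs0 : s < 0) {N : ℕ} (y : Fin N → S d) :
    ∑ i, ∑ j, (dist (y i) (y j)) ^ (-s) ≤ Emax s d N := by
  have hc : IsClosed {y : Fin N → S d | ∑ i, ∑ j, (dist (y i) (y j)) ^ (-s) ≤ Emax s d N} := by
    refine isClosed_le ?_ continuous_const
    refine continuous_finsetSum _ fun i _ => continuous_finsetSum _ fun j _ => ?_
    have h1 : Continuous fun y : Fin N → S d => dist (y i) (y j) :=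
      (continuous_apply i).dist (continuous_apply j)
    exact h1.rpow_const fun _ => Or.inr (by linarith)
  have hsub : {y : Fin N → S d | Function.Injective y} ⊆
      {y : Fin N → S d | ∑ i, ∑ j, (dist (y i) (y j)) ^ (-s) ≤ Emax s d N} := by
    intro y hy
    have h1 := le_csSup (Emax_bdd (d := d) hs0 N) ⟨Finset.univ.map ⟨y, hy⟩, by simp, rfl⟩
    rw [en_eq hs0.ne] at h1
    simp only [Finset.sum_map, Function.Embedding.coeFn_mk] at h1
    exact h1
  exact hc.closure_subset_iff.mpr hsub ((SeqAux.dense_injective hd N) y)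

end Helper23.Riesz
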